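import Mathlib
import Pool.Agent.Q142.Expl
import Pool.Agent.Q142.FaceConcept

set_option autoImplicit false

/-!
# A rational inscribed realization of `C_4(7)^*`
-/

namespace Pool.Agent.Results.MP_6ae079_co.RationalInscribed

open Q142

/-- The point `(t, t², t³, t⁴)` of the moment curve. -/
noncomputable def moment (t : ℝ) : Sp 4 := WithLp.toLp 2 fun c => t ^ (c.val + 1)

/-- The cyclic polytope `C_4(7)`: the convex hull of the seven points of the moment curve with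
parameters `0, 1, …, 6`. -/
noncomputable def C47 : Set (Sp 4) := convexHull ℝ (Set.range fun i : Fin 7 => moment (i.val : ℝ))

/-- the 14 vertices of the inscribed polytope -/
def vx : Fin 14 → Fin 4 → ℤ := ![![0, 0, 0, 778050],
  ![62244, -435708, 155610, 622440],
  ![166725, 500175, -277875, 500175],
  ![335673, -682461, 144495, 77805],
  ![197600, -642200, 185250, 345800],
  ![-41496, -228228, 311220, 674310],
  ![33345, -233415, 722475, 166725],
  ![211185, -589095, 455715, 77805],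
  ![-544635, -77805, -389025, 389025],
  ![-482391, -513513, -233415, 233415],
  ![-32760, -589680, 122850, 491400],
  ![-606879, -420147, 77805, 233415],
  ![-359385, -448305, 351975, 389025],
  ![-281295, -424935, 568575, 149625]]

/-- facet normals -/
def fA : Fin 7 → Fin 4 → ℤ := ![![52, 6, 19, 23],
  ![5, -5, -11, 5],
  ![-32, -26, -5, 55],
  ![-20, 20, 15, 9],
  ![-9, 38, -15, -125],
  ![-742, -2506, 455, -75],
  ![19, -483, 515, 425]]

/-- facet levels -/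
def fb : Fin 7 → ℤ := ![17895150, 3890250, 42792750, 7002450, -40847625, 1521087750, 556305750]

/-- the facets through each vertex -/
def kap : Fin 14 → Fin 4 → Fin 7 := ![![0, 1, 2, 3],
  ![0, 1, 2, 6],
  ![0, 1, 3, 4],
  ![0, 1, 4, 5],
  ![0, 1, 5, 6],
  ![0, 2, 3, 6],
  ![0, 3, 4, 6],
  ![0, 4, 5, 6],
  ![1, 2, 3, 4],
  ![1, 2, 4, 5],
  ![1, 2, 5, 6],
  ![2, 3, 4, 5],
  ![2, 3, 5, 6],
  ![3, 4, 5, 6]]

/-- the neighbours of each vertex -/
def nbr : Fin 14 → Fin 4 → Fin 14 := ![![8, 5, 2, 1],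
  ![10, 5, 4, 0],
  ![8, 6, 3, 0],
  ![9, 7, 4, 2],
  ![10, 7, 1, 3],
  ![12, 6, 1, 0],
  ![13, 7, 5, 2],
  ![13, 4, 6, 3],
  ![11, 2, 9, 0],
  ![11, 3, 10, 8],
  ![12, 4, 1, 9],
  ![13, 9, 12, 8],
  ![13, 10, 5, 11],
  ![7, 12, 6, 11]]

/-- multipliers -/
def mul : Fin 14 → Fin 4 → ℤ := ![![5, 75, 7, 25],
  ![95, 300, 63, 4],
  ![285, 1330, 525, 228],
  ![475, 4750, 684, 7],
  ![95, 200, 2, 8],
  ![105, 77, 275, 11],
  ![1950, 2625, 720, 56],
  ![650, 432, 21, 120],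
  ![50, 7, 25, 4],
  ![750, 105, 76, 3],
  ![504, 189, 6, 8],
  ![65, 125, 42, 1],
  ![143, 209, 3, 11],
  ![875, 504, 21, 60]]

/-- denominators -/
def den : Fin 14 → ℤ := ![225634500, 902538000, 12861166500, 21435277500, 902538000, 2481979500, 40614210000, 13538070000, 225634500, 3384517500, 2707614000, 1128172500, 2481979500, 13538070000]

/-- facet normals of the cyclic polytope -/
def gA : Fin 14 → Fin 4 → ℤ := ![![6, -11, 6, -1],
  ![-12, 20, -9, 1],
  ![12, -19, 8, -1],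
  ![20, -29, 10, -1],
  ![30, -41, 12, -1],
  ![-36, 36, -11, 1],
  ![-72, 54, -13, 1],
  ![-120, 74, -15, 1],
  ![50, -35, 10, -1],
  ![78, -49, 12, -1],
  ![112, -65, 14, -1],
  ![154, -71, 14, -1],
  ![216, -91, 16, -1],
  ![342, -119, 18, -1]]

/-- facet levels of the cyclic polytope -/
def gb : Fin 14 → ℤ := ![0, 0, 0, 0, 0, 0, 0, 0, 24, 40, 60, 120, 180, 360]

/-- the vertex sets of the facets of the cyclic polytope -/
def VJ : Fin 14 → Finset (Fin 7) := ![{0, 1, 2, 3}, {0, 1, 2, 6}, {0, 1, 3, 4}, {0, 1, 4, 5}, {0, 1, 5, 6}, {0, 2, 3, 6}, {0, 3, 4, 6}, {0, 4, 5, 6}, {1, 2, 3, 4}, {1, 2, 4, 5}, {1, 2, 5, 6}, {2, 3, 4, 5}, {2, 3, 5, 6}, {3, 4, 5, 6}]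

/-- the vertex sets of the facets of the inscribed polytope -/
def VI : Fin 7 → Finset (Fin 14) := ![{0, 1, 2, 3, 4, 5, 6, 7}, {0, 1, 2, 3, 4, 8, 9, 10}, {0, 1, 5, 8, 9, 10, 11, 12}, {0, 2, 5, 6, 8, 11, 12, 13}, {2, 3, 6, 7, 8, 9, 11, 13}, {3, 4, 7, 9, 10, 11, 12, 13}, {1, 4, 5, 6, 7, 10, 12, 13}]

/-- non-faces of the cyclic polytope -/
def nonf : Fin 7 → Finset (Fin 7) := ![{0, 2, 4}, {0, 2, 5}, {0, 3, 5}, {1, 3, 5}, {1, 3, 6}, {1, 4, 6}, {2, 4, 6}]

/-- affine dependencies of the points of the moment curve -/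
def dep : Fin 7 → Fin 7 → ℤ := ![![-11, 54, -105, 100, -45, 6, 1],
  ![-7, 30, -45, 20, 15, -18, 5],
  ![-1, 2, 5, -20, 25, -14, 3],
  ![1, -6, 15, -20, 15, -6, 1],
  ![3, -14, 25, -20, 5, 2, -1],
  ![5, -18, 15, 20, -45, 30, -7],
  ![1, 6, -45, 100, -105, 54, -11]]

/-- the points of the moment curve -/
def vy : Fin 7 → Fin 4 → ℤ := fun i c => (i.val : ℤ) ^ (c.val + 1)

lemma C47_eq : C47 = poly (pt vy) := by
  unfold C47 poly
  congr 1
  have : (fun i : Fin 7 => moment (i.val : ℝ)) = pt vy := by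
    funext i
    simp [moment, pt, vy]
  rw [this]

lemma certQ : CCert vx fA fb VI := by
  refine closed_of_simple nbr kap mul den ?_ ?_ ?_ ?_ ?_ ?_
  · decide +kernel
  · decide +kernel
  · decide +kernel
  · decide +kernel
  · decide +kernel
  · decide +kernel

lemma certC : CCert vy gA gb VJ := by
  refine closed_of_nonfaces nonf dep ?_ ?_ ?_ ?_ ?_ ?_
  · decide +kernel
  · decide +kernel
  · decide +kernel
  · decide +kernel
  · decide +kernel
  · decide +kernel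

lemma sphere : ∀ j, ∑ c, vx j c ^ 2 = 778050 ^ 2 := by decide +kernel

lemma incid : ∀ j k, j ∈ VI k ↔ k ∈ VJ j := by decide +kernel

/-- `C_4(7)^*` has a realization all of whose vertices are rational and lie on a common sphere. -/
theorem result : ∃ Q : Set (Sp 4), IsPolytope Q ∧ Nonempty (faces Q ≃o (faces C47)ᵒᵈ) ∧
    (∀ v ∈ vertices Q, ∀ c, ∃ q : ℚ, v c = q) ∧
    ∃ (z : Sp 4) (ρ : ℝ), ∀ v ∈ vertices Q, dist v z = ρ := by
  refine ⟨poly (pt vx), polytope_poly _, ?_, ?_, 0, 778050, ?_⟩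
  · rw [C47_eq]
    exact certQ.dual certC incid
  · intro v hv c
    obtain ⟨j, rfl⟩ := vertex_eq vx hv
    exact ⟨vx j c, by simp [pt]⟩
  · intro v hv
    obtain ⟨j, rfl⟩ := vertex_eq vx hv
    rw [dist_zero_right, EuclideanSpace.norm_eq]
    have h := sphere j
    have h2 : ((∑ c, vx j c ^ 2 : ℤ) : ℝ) = ((778050 ^ 2 : ℤ) : ℝ) := by rw [h]
    push_cast at h2
    have h3 : ∑ c, ‖pt vx j c‖ ^ 2 = (778050 : ℝ) ^ 2 := by
      have h4 : ∑ c, ‖pt vx j c‖ ^ 2 = ∑ c, (vx j c : ℝ) ^ 2 := by simp [pt]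
      rw [h4, h2]
      norm_num
    rw [h3, Real.sqrt_sq (by norm_num)]

end Pool.Agent.Results.MP_6ae079_co.RationalInscribed
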